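import Pool.Agent.W429.TCI.C.Stmts
import Pool.Agent.Helper805.Nuc.Reduce
set_option autoImplicit false
set_option linter.unusedSimpArgs false

/-! From the super identity `K • (N, z, z) = 0` to the nuclearity of `2 K • nstar`
(adapted from Pool.Agent.Helper805.Nuc.NFun and Reduce). -/

namespace Pool.Agent.W563.TCI.C4
open Pool.Agent.Helper805.Nuc.Ext Pool.Agent.Helper805.Nuc.Tens Pool.Agent.Helper805.Nuc.NFun
  Pool.Agent.Helper805.Nuc.Reduce Pool.Agent.W429.TCI Pool.Agent.W429.TCI.C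

/-- the super version of `Gp`, for odd `a i` and even `y` -/
def Gs {R : Type} [NonUnitalNonAssocRing R] (a1 a2 a3 a4 a5 y : R) : R :=
  jo (as a1 a2 a3) (as a4 a5 y)

section
variable {A : Type} [NonUnitalNonAssocRing A] {n : ℕ}

lemma Gs_te (a1 a2 a3 a4 a5 y : A) (k1 k2 k3 k4 k5 : Fin n) :
    Gs (te a1 [k1]) (te a2 [k2]) (te a3 [k3]) (te a4 [k4]) (te a5 [k5]) (te y []) =
      te (Gp a1 a2 a3 a4 a5 y) [k1, k2, k3, k4, k5] := by
  unfold Gs Gp
  rw [as_te, as_te]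
  simp only [List.append_nil, List.nil_append, List.cons_append]
  rw [jo_even _ _ [k1, k2, k3] [k4, k5] (show Even (3 * 2) by decide)]
  simp only [List.append_nil, List.nil_append, List.cons_append]

end

section
variable {R : Type} [NonUnitalNonAssocRing R]

lemma Gs_add1 (a a' b c d e y : R) : Gs (a + a') b c d e y = Gs a b c d e y + Gs a' b c d e y := by
  unfold Gs; simp only [jo_add1, jo_add2, as_add1, as_add2, as_add3]
lemma Gs_add2 (a b b' c d e y : R) : Gs a (b + b') c d e y = Gs a b c d e y + Gs a b' c d e y := by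
  unfold Gs; simp only [jo_add1, jo_add2, as_add1, as_add2, as_add3]
lemma Gs_add3 (a b c c' d e y : R) : Gs a b (c + c') d e y = Gs a b c d e y + Gs a b c' d e y := by
  unfold Gs; simp only [jo_add1, jo_add2, as_add1, as_add2, as_add3]
lemma Gs_add4 (a b c d d' e y : R) : Gs a b c (d + d') e y = Gs a b c d e y + Gs a b c d' e y := by
  unfold Gs; simp only [jo_add1, jo_add2, as_add1, as_add2, as_add3]
lemma Gs_add5 (a b c d e e' y : R) : Gs a b c d (e + e') y = Gs a b c d e y + Gs a b c d e' y := by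
  unfold Gs; simp only [jo_add1, jo_add2, as_add1, as_add2, as_add3]

lemma Gs_z1 (b c d e y : R) : Gs 0 b c d e y = 0 := by
  have := Gs_add1 0 0 b c d e y; simpa using this
lemma Gs_z2 (b c d e y : R) : Gs b 0 c d e y = 0 := by
  have := Gs_add2 b 0 0 c d e y; simpa using this
lemma Gs_z3 (b c d e y : R) : Gs b c 0 d e y = 0 := by
  have := Gs_add3 b c 0 0 d e y; simpa using this
lemma Gs_z4 (b c d e y : R) : Gs b c d 0 e y = 0 := by
  have := Gs_add4 b c d 0 0 e y; simpa using this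
lemma Gs_z5 (b c d e y : R) : Gs b c d e 0 y = 0 := by
  have := Gs_add5 b c d e 0 0 y; simpa using this

lemma Gs_sum {ι : Type} (s : Finset ι) (g : ι → R) (y : R) :
    Gs (∑ i ∈ s, g i) (∑ i ∈ s, g i) (∑ i ∈ s, g i) (∑ i ∈ s, g i) (∑ i ∈ s, g i) y =
      ∑ i1 ∈ s, ∑ i2 ∈ s, ∑ i3 ∈ s, ∑ i4 ∈ s, ∑ i5 ∈ s, Gs (g i1) (g i2) (g i3) (g i4) (g i5) y := by
  rw [add_sum_of s (fun a => Gs a _ _ _ _ y) (Gs_z1 _ _ _ _ _) (fun a b => Gs_add1 a b _ _ _ _ _)]
  refine Finset.sum_congr rfl fun i1 _ => ?_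
  rw [add_sum_of s (fun a => Gs _ a _ _ _ y) (Gs_z2 _ _ _ _ _) (fun a b => Gs_add2 _ a b _ _ _ _)]
  refine Finset.sum_congr rfl fun i2 _ => ?_
  rw [add_sum_of s (fun a => Gs _ _ a _ _ y) (Gs_z3 _ _ _ _ _) (fun a b => Gs_add3 _ _ a b _ _ _)]
  refine Finset.sum_congr rfl fun i3 _ => ?_
  rw [add_sum_of s (fun a => Gs _ _ _ a _ y) (Gs_z4 _ _ _ _ _) (fun a b => Gs_add4 _ _ _ a b _ _)]
  refine Finset.sum_congr rfl fun i4 _ => ?_
  rw [add_sum_of s (fun a => Gs _ _ _ _ a y) (Gs_z5 _ _ _ _ _) (fun a b => Gs_add5 _ _ _ _ a b _)]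

end

section
variable {A : Type} [NonUnitalNonAssocRing A] {n : ℕ}

theorem Gs_XI (ι : Fin 5 → Fin n) (x : Fin 5 → A) (y : A) :
    Gs (XI ι x) (XI ι x) (XI ι x) (XI ι x) (XI ι x) (te y []) = te (nstar x y) (List.ofFn ι) := by
  unfold XI
  rw [Gs_sum]
  simp only [Gs_te]
  have h1 := sum5 (fun r : Fin 5 → Fin 5 => te (Gp (x (r 0)) (x (r 1)) (x (r 2)) (x (r 3)) (x (r 4)) y)
    [ι (r 0), ι (r 1), ι (r 2), ι (r 3), ι (r 4)])
  refine h1.trans ?_
  have h2 : ∀ r : Fin 5 → Fin 5, [ι (r 0), ι (r 1), ι (r 2), ι (r 3), ι (r 4)] = List.ofFn (fun i => ι (r i)) := by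
    intro r; simp [List.ofFn_succ]
  simp only [h2]
  have hinj : Function.Injective (fun σ : Equiv.Perm (Fin 5) => (σ : Fin 5 → Fin 5)) := Equiv.coe_fn_injective
  rw [← Finset.sum_subset (Finset.subset_univ (Finset.univ.map ⟨_, hinj⟩)), Finset.sum_map]
  · unfold nstar
    have h3 : te (∑ σ : Equiv.Perm (Fin 5), ((Equiv.Perm.sign σ : ℤˣ) : ℤ) • Gp (x (σ 0)) (x (σ 1)) (x (σ 2)) (x (σ 3)) (x (σ 4)) y)
        (List.ofFn ι) = ∑ σ : Equiv.Perm (Fin 5), te (((Equiv.Perm.sign σ : ℤˣ) : ℤ) •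
          Gp (x (σ 0)) (x (σ 1)) (x (σ 2)) (x (σ 3)) (x (σ 4)) y) (List.ofFn ι) := by
      have h4 := map_sum (AddMonoidHom.mk' (fun a : A => (te a (List.ofFn ι) : TS A n)) (fun a b => (te_add a b _).symm))
        (fun σ : Equiv.Perm (Fin 5) => ((Equiv.Perm.sign σ : ℤˣ) : ℤ) • Gp (x (σ 0)) (x (σ 1)) (x (σ 2)) (x (σ 3)) (x (σ 4)) y) Finset.univ
      exact h4
    rw [h3]
    refine Finset.sum_congr rfl fun σ _ => ?_
    rw [te_zsmul]
    show te _ (List.ofFn (fun i => ι (σ i))) = _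
    unfold te
    rw [E_perm ℤ n 5 ι σ]
    have h5 : ∀ (m : ℤ) (a : A) (u : ExteriorAlgebra ℤ (Fin n → ℤ)), tm a (m • u) = m • tm a u := by
      intro m a u
      exact map_zsmul (AddMonoidHom.mk' (fun u => (tm a u : TS A n)) (fun u v => tm_addr a u v)) m u
    rw [h5]
    rfl
  · intro r _ hr
    unfold te
    rw [E_noninj, tm_zeror]
    intro hri
    apply hr
    rw [Finset.mem_map]
    have hri' : Function.Injective r := fun a b hab => hri (by show ι (r a) = ι (r b); rw [hab])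
    exact ⟨Equiv.ofBijective r (Finite.injective_iff_bijective.mp hri'), Finset.mem_univ _, rfl⟩

end

theorem c4 : S_C4 := by
  intro B _ hB K hcert x y r s
  let ι : Fin 5 → Fin 7 := Fin.castLE (by norm_num)
  have h := hcert (XI ι x) (XI_mem ι x) (te y []) (te_mem y [])
    (te r [5] + te s [6]) (AddSubgroup.add_mem _ (te_mem r [5]) (te_mem s [6]))
  have h0 : jo (as (XI ι x) (XI ι x) (XI ι x)) (as (XI ι x) (XI ι x) (te y []))
      = te (nstar x y) (List.ofFn ι) := Gs_XI ι x y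
  rw [h0, as_add2, as_add3, as_add3, as_te, as_te, as_te, as_te, te_sq, te_sq, te_swap1 _ _ 5 6, zero_add, add_zero,
    hB.as_right _ s r, te_neg, neg_neg, ← two_smul ℤ, smul_smul, ← te_zsmul] at h
  have h2 : (List.ofFn ι ++ [5] ++ [6] : List (Fin 7)) = List.ofFn (fun i : Fin 7 => i) := by decide
  rw [h2] at h
  have h3 := congrArg ext h
  rw [ext_te, map_zero, mul_comm] at h3
  exact h3

end Pool.Agent.W563.TCI.C4
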